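import Pool.Agent.X72.RSR.Stm

set_option autoImplicit false

open MeasureTheory ProbabilityTheory Filter Topology
open scoped ENNReal

namespace Pool.Agent.X309.RS

open Pool.Agent.X19.SS

section
variable {K : Type} [RCLike K] [MeasurableSpace K] [BorelSpace K]

theorem gprob (ι : Type) [Fintype ι] : IsProbabilityMeasure (gK K ι) := by
  unfold gK; infer_instance

theorem dist2_meas {r l : ℕ} :
    Measurable fun p : (Fin l → K) × (Fin r → Fin l → K) => dist2 p.2 p.1 := by
  unfold dist2
  have hu : UpperSemicontinuous fun p : (Fin l → K) × (Fin r → Fin l → K) =>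
      ⨅ v : Fin r → K, nsq (p.1 + ∑ k, v k • p.2 k) := by
    refine upperSemicontinuous_iInf fun v => Continuous.upperSemicontinuous ?_
    unfold nsq
    fun_prop
  exact hu.measurable

end

theorem t_RM : Pool.Agent.X72.RSR.S_RM := by
  intro hD2 hD3 K _ _ _ m p hp
  haveI : IsProbabilityMeasure (gK K (Fin m)) := gprob (Fin m)
  have hF : Measurable (fun C : Fin (p + 1) → Fin m → K =>
      dist2 (fun i : Fin p => C i.castSucc) (C (Fin.last p))) := by
    have h1 : Measurable fun M : Fin (p + 1) → Fin m → K =>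
        ((M (Fin.last p), fun k : Fin p => M k.castSucc) : (Fin m → K) × (Fin p → Fin m → K)) := by
      fun_prop
    have h0 : Measurable (fun q : (Fin m → K) × (Fin p → Fin m → K) => dist2 q.2 q.1) := dist2_meas
    have h2 := h0.comp h1
    simp only [Function.comp_def] at h2
    exact h2
  refine ⟨hF, ?_⟩
  have hmp := (measurePreserving_piFinSuccAbove (fun _ : Fin (p + 1) => gK K (Fin m)) (Fin.last p)).symm
  rw [← hmp.lintegral_comp hF]
  have hG : Measurable (fun z : (Fin m → K) × (Fin p → Fin m → K) => dist2 z.2 z.1) := dist2_meas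
  have heq : ∀ z : (Fin m → K) × (Fin p → Fin m → K),
      dist2 (fun i : Fin p => (MeasurableEquiv.piFinSuccAbove (fun _ : Fin (p + 1) => Fin m → K)
        (Fin.last p)).symm z i.castSucc)
        ((MeasurableEquiv.piFinSuccAbove (fun _ : Fin (p + 1) => Fin m → K)
        (Fin.last p)).symm z (Fin.last p)) = dist2 z.2 z.1 := by
    intro z
    congr 1
    · funext i
      simp [MeasurableEquiv.piFinSuccAbove, Fin.insertNthEquiv]
    · simp [MeasurableEquiv.piFinSuccAbove, Fin.insertNthEquiv]
  have h3 : ∫⁻ z, dist2 z.2 z.1 ∂((gK K (Fin m)).prod (Measure.pi fun _ : Fin p => gK K (Fin m))) =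
      (Module.finrank ℝ K : ℝ≥0∞) * ((m - p : ℕ) : ℝ≥0∞) := by
    rw [lintegral_prod_symm _ hG.aemeasurable]
    have hae := hD2 K p (Fin m) (by simpa using hp)
    have h4 : ∀ᵐ S ∂(Measure.pi fun _ : Fin p => gK K (Fin m)),
        ∫⁻ x, dist2 S x ∂(gK K (Fin m)) = (Module.finrank ℝ K : ℝ≥0∞) * ((m - p : ℕ) : ℝ≥0∞) := by
      filter_upwards [hae] with S hS
      have := hD3 K p (Fin m) S hS (by simpa using hp)
      rw [Fintype.card_fin] at this
      exact this
    rw [lintegral_congr_ae h4, lintegral_const, measure_univ, mul_one]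
  rw [← h3]
  exact lintegral_congr heq

end Pool.Agent.X309.RS
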